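import Mathlib
import Pool.Agent.Helper97.SA.Fin
import Pool.Agent.Helper47.VG.Level
import Pool.Agent.Helper47.VG.Bridge
import Pool.Agent.Helper47.VG.VG1

/-!
# Murre's conjecture (D) for very general zero loci in arbitrary varieties

Let `K` be an algebraically closed field, `M` a smooth projective variety over `K`, and `X ⊆ M` a
very general zero locus of dimension `d`: `M` and the sections `s_l` of a vector bundle on `M` are
defined over a subfield `F`, distinct points impose independent conditions on the combinations of
the `s_l`, and `X` is the zero locus of `∑ a_l s_l`, where the `a_l` are algebraically independent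
over `F`.  Suppose that `H(M) → H(X)` is not surjective.

* Suppose that the diagonal of `M` is a combination of exterior products, of correspondences which
  factor through varieties with nilpotent rings of homologically trivial correspondences, and of
  compositions of elements of `CH^{n - s}(M × D)` and `CH^{dim D + s}(D × M)`, `n = dim M`, where
  `d ≤ 2 s + 1`.  Then all homologically trivial classes in `CH^d(X × X)` are nilpotent.  If one
  Chow-Künneth decomposition of `X` satisfies Murre's conjecture (D) in codimension `i`, all do.
  All Chow-Künneth decompositions satisfy (D) in all codimensions, if `d ≤ 2 t + 3`, where `t = 0`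
  or the diagonal of `X` is a combination of exterior products and of compositions of elements of
  `CH^{d - t}(X × D)` and `CH^{dim D + t}(D × X)`, and if the cohomology of `X` is algebraic
  outside the middle degree, or the Lefschetz isomorphisms of `X` are algebraic.
* Without any condition on the diagonal of `M`, every homologically trivial class in
  `CH^d(X × X)` has a power in the two-sided ideal generated by the restrictions of the classes in
  `CH^d(M × M)`.

By the theorem of Bloch and Srinivas, the diagonal of `M` has the property above with `s = 1` if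
the group of zero-cycles of `M` is `ℚ`, and the diagonal of `X` has the property with `t = 1` if the
group of zero-cycles of `X` is `ℚ`, for instance for Fano varieties.
-/

universe u v w

open CategoryTheory AlgebraicGeometry Limits

namespace Pool.Agent.Results.MP_583472_ag.AnyVariety

open Pool.Agent.Helper10 Pool.Agent.Helper10.SmProjVar Pool.Agent.Helper47.Chow
open Pool.Agent.Helper47.Zero Pool.Agent.Helper47.VG
open Pool.Agent.Helper97.SA (InIdeal)

theorem result {K : Type u} [Field K] [IsAlgClosed K] {L : Type v} [Field L] [CharZero L]
    {W : WeilCohomology.{u, v, w} K L} (C : ChowTheory W) (hC : IsStandard C) {X M : SmProjVar K}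
    (j : X.toOver ⟶ M.toOver) (hj : IsVeryGeneral j)
    (hvan : ∃ x : W.H X, x ∉ Set.range (W.pull j)) :
    (∀ s, HasLevelMod C M s → X.dim ≤ 2 * s + 1 →
      NilHom C X ∧
      (∀ i π π', IsCK C X π → IsCK C X π' → C.MurreD X π i → C.MurreD X π' i) ∧
      (IsAlgOff C X → (∃ π, IsCK C X π) ∧ ∀ i, MurreDAll C X i ↔
        (2 * i ≤ X.dim → ∀ a ∈ CHi X i, C.ops.cl X a = 0 → a = 0)) ∧
      ∀ t, t = 0 ∨ HasLevel C X t → X.dim ≤ 2 * t + 3 → IsAlgOff C X ∨ HasLefschetz C X →
        ∀ i, MurreDAll C X i) ∧
    ∀ γ : CH (X.prod X), HomTriv C γ → ∃ n, 0 < n ∧ InIdeal C j (prodSeq C (fun _ => γ) n) := by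
  obtain ⟨F, iF, iA, M₀, r, I, iI, S, a, pM, hsep, h⟩ := hj
  have hcl := h.closed
  obtain ⟨h1, h2⟩ := Helper97.SA.main S hsep a h.independent (Or.inl inferInstance) M X pM
    h.baseChange j h.zeroLocus h.codim C (isEquivariant_of hC.natural) hC.support hvan
  refine ⟨fun s hs hd => ?_, h1⟩
  obtain ⟨h3, -, h4, h5, -⟩ := h2 s (decomposes_of hs) (by
    rcases Nat.lt_or_ge X.dim (2 * s + 1) with h | h
    · exact Or.inl (by omega)
    · exact Or.inr ⟨by omega, hC.seesaw⟩)
  exact ⟨h3, h4, fun hA => ⟨exists_isCK hA, h5 hA⟩, fun t ht htd hL i => murreD_all (nilHom_iff.mp h3) hC.picard ht htd hL i⟩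

end Pool.Agent.Results.MP_583472_ag.AnyVariety
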