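import Mathlib
import Pool.Agent.Helper52.VG.DescB

/-!
# Nilpotence of homologically trivial correspondences and Murre's conjecture (D)

Let `Γ` be a group of semilinear automorphisms of `X` (automorphisms of the scheme `X` over
automorphisms of the base field, for instance `Γ = Gal(k / k₀)` and `X = X₀ ×_{k₀} k`) such that
the points of `X × X` have finite orbits, and let `d = dim X`.  Suppose that

* the `Γ`-invariant homologically trivial classes in `CH^d(X × X)` form a nilpotent ring, or
* the `Γ`-invariant classes in `CH^d(X × X)` are combinations of the diagonal and of exterior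
  products, and the cohomology of `X` is not spanned by algebraic classes

(this is the case for very general complete intersections, by the spreading argument of Voisin).
Then all homologically trivial classes in `CH^d(X × X)` are nilpotent.  Consequently, for each `i`,
if one Chow-Künneth decomposition of `X` satisfies Murre's conjecture (D) in codimension `i`, then
all of them do; and if `H^j(X)` is algebraic for `j ≠ d`, all of them do if and only if `d < 2 i`
or `CH^i(X)` contains no homologically trivial classes.  All of them satisfy (D) in all
codimensions if `d ≤ 2 t + 3`, where `t = 0` or the diagonal of `X` is a combination of exterior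
products and of compositions of elements of `CH^{d - t}(X × D)` and `CH^{dim D + t}(D × X)`, and if
the cohomology of `X` is algebraic outside the middle degree, or the Lefschetz isomorphisms of `X`
are algebraic.
-/

universe u v w

open CategoryTheory AlgebraicGeometry Limits

namespace Pool.Agent.Results.MP_583472_ag.Descent

open Pool.Agent.Helper10 Pool.Agent.Helper10.SmProjVar Pool.Agent.Helper47.Chow
open Pool.Agent.Helper47.Zero Pool.Agent.Helper47.VG Pool.Agent.Helper52.VG

theorem result {k : Type u} [Field k] {K : Type v} [Field K] [CharZero K]
    {W : WeilCohomology.{u, v, w} k K} (C : ChowTheory W) (hC : IsNatural C)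
    (X : SmProjVar k) (Γ : Subgroup (Aut (Arrow.mk X.toOver.hom))) (hfin : HasFiniteOrbits X Γ)
    (h : FixedNil C X Γ ∨
      (FixedDec C X Γ ∧ ∃ x : W.H X, x ∉ Submodule.span K (Set.range (C.ops.cl X)))) :
    NilHom C X ∧
    (∀ i π π', IsCK C X π → IsCK C X π' → C.MurreD X π i → C.MurreD X π' i) ∧
    (IsAlgOff C X → (∃ π, IsCK C X π) ∧ ∀ i, MurreDAll C X i ↔
      (2 * i ≤ X.dim → ∀ a ∈ CHi X i, C.ops.cl X a = 0 → a = 0)) ∧
    (HasPicards C → ∀ t, t = 0 ∨ HasLevel C X t → X.dim ≤ 2 * t + 3 →
      IsAlgOff C X ∨ HasLefschetz C X → ∀ i, MurreDAll C X i) :=
  descent hC Γ hfin h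

end Pool.Agent.Results.MP_583472_ag.Descent
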