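import Mathlib
import Pool.Agent.Helper11.PW.Final
import Pool.Agent.Helper47.VG.Level
import Pool.Agent.Helper47.VG.Bridge
import Pool.Agent.Helper47.VG.VG2

/-!
# Murre's conjecture (D) for the powers of very general zero loci

Let `K` be an algebraically closed field, `M` a smooth projective variety over `K`, `X ⊆ M` a very
general zero locus of dimension `d` and `n ≥ 1`: `M` and the sections `s_l` of a vector bundle on
`M` are defined over a subfield `F`, any at most `2 n` distinct points impose independent
conditions on the combinations of the `s_l` (for complete intersections in projective spaces: all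
degrees are at least `2 n - 1`), and `X` is the zero locus of `∑ a_l s_l`, where the `a_l` are
algebraically independent over `F`.  Suppose that

* the class of the diagonal of `M` is a combination of exterior products, and the semilinear
  automorphisms of `M` over its model act trivially on `CH(M)` (for instance projective spaces,
  Grassmannians, products of these, and other cellular varieties over `F`);
* for `2 i ≤ d` the pairing of the restrictions to `X` of the classes in `CH^i(M)` with those of the
  classes in `CH^{d - i}(M)` has no left kernel (hard Lefschetz);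
* the part of `H^d(X)` which is orthogonal to the restrictions of `H(M)` has dimension at least `n`
  if `d` is even and at least `2 n` if `d` is odd.

Let `Y` be `X^n` or a smooth projective variety whose motive is a direct summand of a sum of Tate
twists of the motive of `X^n`.  Then all homologically trivial classes in `CH^{dim Y}(Y × Y)` are
nilpotent for the composition of correspondences.  Hence if one Chow-Künneth decomposition of `Y`
satisfies Murre's conjecture (D) in codimension `i`, all do.  All of them satisfy (D) in all
codimensions if `dim Y ≤ 2 t + 3`, where `t = 0` or the diagonal of `Y` is a combination of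
exterior products and of compositions of elements of `CH^{dim Y - t}(Y × D)` and
`CH^{dim D + t}(D × Y)`, and if the cohomology of `Y` is algebraic outside the middle degree, or
the Lefschetz isomorphisms of `Y` are algebraic.  If moreover `H^j(X)` is the restriction of
`H^j(M)` for `j ≠ d`, then `Y` has Chow-Künneth decompositions, and all Chow-Künneth decompositions
of `X^n` satisfy (D) in the codimensions `i > (n - 1 / 2) d`.
-/

universe u v w

open CategoryTheory AlgebraicGeometry Limits

namespace Pool.Agent.Results.MP_583472_ag.PowersAndSummands

open Pool.Agent.Helper10 Pool.Agent.Helper10.SmProjVar Pool.Agent.Helper47.Chow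
open Pool.Agent.Helper47.Zero Pool.Agent.Helper47.VG
open Pool.Agent.Helper11.Powers

theorem result {K : Type u} [Field K] [IsAlgClosed K] {L : Type v} [Field L] [CharZero L]
    {W : WeilCohomology.{u, v, w} K L} (C : ChowTheory W) (hC : IsStandard C) {X M : SmProjVar K}
    (j : X.toOver ⟶ M.toOver) (n : ℕ) (hn : 0 < n) (hj : IsVeryGeneralFor n j)
    (hΔ : DiagonalDecomposes C M) (hnd : Nondegenerate C j) (hvan : VanishingDimAtLeast W j n)
    (P : SmProjVar K) (p : Fin n → (P.toOver ⟶ X.toOver)) (hP : IsPower X P p) :
    (∀ Y : SmProjVar K, Y = P ∨ Helper11.Powers.IsSummand C P Y →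
      NilHom C Y ∧
      (∀ i π π', IsCK C Y π → IsCK C Y π' → C.MurreD Y π i → C.MurreD Y π' i) ∧
      (∀ t, t = 0 ∨ HasLevel C Y t → Y.dim ≤ 2 * t + 3 → IsAlgOff C Y ∨ HasLefschetz C Y →
        ∀ i, MurreDAll C Y i) ∧
      (AmbientOffMiddle W j → ∃ π, IsCK C Y π)) ∧
    (AmbientOffMiddle W j → ∀ i, 2 * n * X.dim < 2 * i + X.dim → MurreDAll C P i) := by
  obtain ⟨F, iF, iA, M₀, r, I, iI, S, a, pM, hind, htriv', h⟩ := hj
  have htriv : ActsTrivially pM := by
    intro g hg z
    obtain ⟨y, rfl⟩ := exists_cls z
    exact htriv' g.sch g.base (isSemi_of M g) hg y
  have hcl := h.closed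
  have key : ∀ Y : SmProjVar K, Helper11.Powers.IsSummand C P Y → Helper47.Desc.NilHom C Y :=
    fun Y hY => nilHom_summand hn hind h.independent (Or.inl inferInstance) pM h.baseChange j
      h.zeroLocus h.codim (isEquivariant_of hC.natural) hC.support hΔ htriv hnd hvan (T := Fin n)
      (by rw [Nat.card_eq_fintype_card, Fintype.card_fin]) ⟨P, p, isPow_old hP⟩ hY
  refine ⟨fun Y hY => ?_, fun hamb i hi π hπ =>
    murreD_power (j := j) hΔ hP (key P (isSummand_refl C P)) hamb i π hπ hi⟩
  have hY' : Helper11.Powers.IsSummand C P Y := by
    rcases hY with rfl | hY
    · exact isSummand_refl C _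
    · exact hY
  obtain ⟨h1, h2, h3⟩ := consequences_summand (j := j) hΔ hP hY' (key Y hY')
  exact ⟨h1, h2, fun t ht htd hL i => murreD_all (key Y hY') hC.picard ht htd hL i, h3⟩

end Pool.Agent.Results.MP_583472_ag.PowersAndSummands
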