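import Mathlib
import Pool.Agent.Helper47.Sym.D
import Pool.Agent.Helper47.VG.Level
import Pool.Agent.Helper47.VG.Bridge
import Pool.Agent.Helper47.VG.VG3

/-!
# Murre's conjecture (D) for cyclic covers and other symmetric zero loci

Let `K` be an algebraically closed field, `M` a smooth projective variety over `K` and `X ⊆ M` a
very general zero locus with finitely many endomorphisms `f_i`: `M` and the sections `s_l` of a
vector bundle on `M` are defined over a subfield `F`, the `f_i` come from endomorphisms of the
model of `M` over `F`, points `x`, `x'` of `X` impose independent conditions on the combinations of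
the `s_l` unless `x = f_i(x')` for some `i`, and `X` is the zero locus of `∑ a_l s_l`, where the
`a_l` are algebraically independent over `F`.  Suppose that the homologically trivial classes in
`CH^{dim M}(M × M)` form a nilpotent ring and that every linear relation between the operators
`f_i^*` on `H(X) / H(M)` comes from a class on `M × M`.

Let `Y` be `X`, or a variety dominated by `X`, or any variety whose motive is a direct summand of
a Tate twist of the motive of `X`.  Then all homologically trivial classes in
`CH^{dim Y}(Y × Y)` are nilpotent.  If one Chow-Künneth decomposition of `Y` satisfies Murre's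
conjecture (D) in codimension `i`, all do.  All Chow-Künneth decompositions satisfy (D) in all
codimensions if `dim Y ≤ 2 t + 3`, where `t = 0` or the diagonal of `Y` is a combination of
exterior products and of compositions of elements of `CH^{dim Y - t}(Y × D)` and
`CH^{dim D + t}(D × Y)`, and if the cohomology of `Y` is algebraic outside the middle degree, or
the Lefschetz isomorphisms of `Y` are algebraic.

Examples over the complex numbers.

* Cyclic covers `X = (y^m = φ)` of `B`, `φ` a very general section of `A^m`, where `A` is a line
  bundle on `B` and `A^m` is very ample; `M = P(O ⊕ A^{-1})`, `Γ = μ_m`, `f_i` the covering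
  transformations.  The values of `y^m`, `φ` at `x`, `x'` are independent unless `x = ζ x'`.  The
  eigenspaces of `H(X)` for the non-trivial characters are non-zero (if the Euler characteristics
  of `B` and of the branch divisor are different), so the only relation between the `ζ^*` on
  `H(X) / H(M)` is `∑ ζ^* = 0`, and `∑ [(ζ x, x)]` is the restriction of `M ×_B M`.  This applies
  to `B = P^n`, and to all intermediate covers `Y` of `X`.
* Very general invariant complete intersections of large degree for a finite group acting on a
  projective space, and their smooth quotients.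
-/

universe u v w

open CategoryTheory AlgebraicGeometry Limits

namespace Pool.Agent.Results.MP_583472_ag.Symmetric

open Pool.Agent.Helper10 Pool.Agent.Helper10.SmProjVar Pool.Agent.Helper47.Chow
open Pool.Agent.Helper47.Zero Pool.Agent.Helper47.VG

theorem result {K : Type u} [Field K] [IsAlgClosed K] {L : Type v} [Field L] [CharZero L]
    {W : WeilCohomology.{u, v, w} K L} (C : ChowTheory W) (hC : IsStandard C) {X M : SmProjVar K}
    (j : X.toOver ⟶ M.toOver) {Γ : Type} [Fintype Γ] (f : Γ → (X.toOver ⟶ X.toOver))
    (hj : IsVeryGeneralUpTo j f) (hN : NilRing C M) (hrel : RelationsRestrict C j f)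
    (Y : SmProjVar K) (hY : Dominates C X Y ∨ IsSummand C X Y) :
    NilHom C Y ∧
    (∀ i π π', IsCK C Y π → IsCK C Y π' → C.MurreD Y π i → C.MurreD Y π' i) ∧
    (IsAlgOff C Y → (∃ π, IsCK C Y π) ∧ ∀ i, MurreDAll C Y i ↔
      (2 * i ≤ Y.dim → ∀ a ∈ CHi Y i, C.ops.cl Y a = 0 → a = 0)) ∧
    ∀ t, t = 0 ∨ HasLevel C Y t → Y.dim ≤ 2 * t + 3 → IsAlgOff C Y ∨ HasLefschetz C Y →
      ∀ i, MurreDAll C Y i := by
  obtain ⟨F, iF, iA, M₀, r, I, iI, S, a, pM, hsep, hf, h⟩ := hj
  have hcl := h.closed
  choose f₀ hf₀ using hf
  have hnil := Helper47.Sym.nilHom_of_isSummand
    (hY.elim Helper47.Sym.isSummand_of_dominates id)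
    (Helper47.Sym.nilHom_symmetric S a h.independent M X pM h.baseChange j h.zeroLocus h.codim f f₀
      hf₀ hsep (isEquivariant_of hC.natural) hC.support hN hrel)
  obtain ⟨h1, -, -, h4, h5, -⟩ := consequences hnil
  exact ⟨h1, h4, fun hA => ⟨exists_isCK hA, h5 hA⟩, fun t ht htd hL i => murreD_all hnil hC.picard ht htd hL i⟩

end Pool.Agent.Results.MP_583472_ag.Symmetric
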